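import Mathlib
import Pool.Agent.TH115.SD.Hensel

/-!
Project ESF, job INF, general part: a point which is not of order dividing 4, near to the origin.
-/

set_option autoImplicit false

namespace Pool.Agent.Q238.ESF

open WeierstrassCurve WithZero

section

variable {L : Type*} [Field L] [Valued L (WithZero (Multiplicative ℤ))]

theorem val_one_of_sub {x : L} (hx : (Valued.v : Valuation L (WithZero (Multiplicative ℤ))) (x - 1) < 1) :
    (Valued.v : Valuation L (WithZero (Multiplicative ℤ))) x = 1 := by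
  have h := Valuation.map_one_add_of_lt (v := (Valued.v : Valuation L (WithZero (Multiplicative ℤ)))) hx
  rwa [add_sub_cancel] at h

/-- duplication on `y² = x³ + A x + B` -/
theorem dup {F : Type*} [Field F] {W : WeierstrassCurve F} {A B : F} (h1 : W.a₁ = 0)
    (h2 : W.a₂ = 0) (h3 : W.a₃ = 0) (h4 : W.a₄ = A) (h6 : W.a₆ = B) (c2 : (2 : F) ≠ 0) {u v : F}
    (hn : W.toAffine.Nonsingular u v) (hv : v ≠ 0) [DecidableEq F] :
    ∃ (X Y : F) (hn' : W.toAffine.Nonsingular X Y),
      (Affine.Point.some u v hn : W.toAffine.Point) + .some u v hn = .some X Y hn' ∧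
      X * (4 * v ^ 2) = u ^ 4 - 2 * A * u ^ 2 - 8 * B * u + A ^ 2 := by
  have hneg : W.toAffine.negY u v = -v := by
    rw [Affine.negY]
    have e1 : W.toAffine.a₁ = 0 := h1
    have e3 : W.toAffine.a₃ = 0 := h3
    rw [e1, e3]; ring
  have hY : v ≠ W.toAffine.negY u v := by
    rw [hneg]
    intro h5
    apply hv
    have h6 : 2 * v = 0 := by linear_combination h5
    exact (mul_eq_zero.1 h6).resolve_left c2
  refine ⟨_, _, _, Affine.Point.add_self_of_Y_ne hY, ?_⟩
  have he := (W.toAffine.equation_iff u v).1 hn.1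
  have e1 : W.toAffine.a₁ = 0 := h1
  have e2 : W.toAffine.a₂ = 0 := h2
  have e3 : W.toAffine.a₃ = 0 := h3
  have e4 : W.toAffine.a₄ = A := h4
  have e6 : W.toAffine.a₆ = B := h6
  rw [e1, e2, e3, e4, e6] at he
  have he' : v ^ 2 = u ^ 3 + A * u + B := by linear_combination he
  rw [Affine.slope_of_Y_ne rfl hY, hneg, Affine.addX, e1, e2, e4]
  have hv2 : v - -v ≠ 0 := by
    intro h5
    apply hv
    have h6 : 2 * v = 0 := by linear_combination h5
    exact (mul_eq_zero.1 h6).resolve_left c2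
  have e5 : v - -v = 2 * v := by ring
  rw [e5] at hv2 ⊢
  have e7 : (((3 * u ^ 2 + 2 * 0 * u + A - 0 * v) / (2 * v)) ^ 2 +
      0 * ((3 * u ^ 2 + 2 * 0 * u + A - 0 * v) / (2 * v)) - 0 - u - u) * (4 * v ^ 2) =
      (3 * u ^ 2 + A) ^ 2 - 8 * u * v ^ 2 := by
    field_simp
    ring
  rw [e7, he']
  ring

theorem core [CompleteSpace L] [T0Space L]
    (h2 : (Valued.v : Valuation L (WithZero (Multiplicative ℤ))) 2 = 1)
    (W : WeierstrassCurve L) (A B : L) (h1 : W.a₁ = 0) (ha2 : W.a₂ = 0) (h3 : W.a₃ = 0)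
    (h4 : W.a₄ = A) (h6 : W.a₆ = B) (hΔ : W.Δ ≠ 0) (t : L) (ht : t ≠ 0)
    (htA : (Valued.v : Valuation L (WithZero (Multiplicative ℤ))) (A * t ^ 4) < 1)
    (htB : (Valued.v : Valuation L (WithZero (Multiplicative ℤ))) (B * t ^ 6) < 1)
    [DecidableEq L] :
    ∃ S : W.toAffine.Point, S + S + (S + S) ≠ 0 := by
  set V : Valuation L (WithZero (Multiplicative ℤ)) := Valued.v with hV
  have c2 : (2 : L) ≠ 0 := by
    intro h
    rw [h, map_zero] at h2
    exact zero_ne_one h2
  obtain ⟨w, hw, hw1⟩ := Pool.Agent.TH115.GD.sqrt_one_unit (L := L) h2 (1 + A * t ^ 4 + B * t ^ 6) (by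
    have e : 1 + A * t ^ 4 + B * t ^ 6 - 1 = A * t ^ 4 + B * t ^ 6 := by ring
    rw [e]
    exact Valuation.map_add_lt _ htA htB)
  have hwv : V w = 1 := val_one_of_sub hw1
  have hw0 : w ≠ 0 := by
    intro h
    rw [h, map_zero] at hwv
    exact zero_ne_one hwv
  have heq : (w / t ^ 3) ^ 2 = (1 / t ^ 2) ^ 3 + A * (1 / t ^ 2) + B := by
    rw [div_pow, hw]
    field_simp
  have e1 : W.toAffine.a₁ = 0 := h1
  have e2 : W.toAffine.a₂ = 0 := ha2
  have e3 : W.toAffine.a₃ = 0 := h3
  have e4 : W.toAffine.a₄ = A := h4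
  have e6 : W.toAffine.a₆ = B := h6
  have hn : W.toAffine.Nonsingular (1 / t ^ 2) (w / t ^ 3) := by
    rw [← Affine.equation_iff_nonsingular_of_Δ_ne_zero hΔ, Affine.equation_iff, e1, e2, e3, e4, e6]
    linear_combination heq
  have hv0 : w / t ^ 3 ≠ 0 := div_ne_zero hw0 (pow_ne_zero 3 ht)
  obtain ⟨X, Y, hn', hXY, hX⟩ := dup h1 ha2 h3 h4 h6 c2 hn hv0
  refine ⟨.some _ _ hn, ?_⟩
  rw [hXY]
  -- the new abscissa
  have v2 : ∀ c : L, V c ≤ 1 → ∀ x : L, V x < 1 → V (c * x) < 1 := by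
    intro c hc x hx
    rw [map_mul]
    calc V c * V x ≤ 1 * V x := by gcongr
      _ = V x := one_mul _
      _ < 1 := hx
  have vint : ∀ n : ℕ, V (n : L) ≤ 1 := by
    intro n
    induction n with
    | zero => simp
    | succ n ih =>
      push_cast
      refine (V.map_add _ _).trans (max_le ih ?_)
      rw [map_one]
  have vn2 : V (2 : L) ≤ 1 := h2.le
  have hq : V (X * t ^ 2 * (4 * w ^ 2)) = 1 := by
    have e : X * t ^ 2 * (4 * w ^ 2) =
        1 + (-(2 * (A * t ^ 4)) - 8 * (B * t ^ 6) + (A * t ^ 4) * (A * t ^ 4)) := by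
      have e7 : X * t ^ 2 * (4 * w ^ 2) = X * (4 * (w / t ^ 3) ^ 2) * t ^ 8 := by
        field_simp
      rw [e7, hX]
      field_simp
      ring
    rw [e]
    apply Valuation.map_one_add_of_lt
    refine Valuation.map_add_lt _ ?_ ?_
    · refine Valuation.map_sub_lt _ ?_ ?_
      · rw [Valuation.map_neg]
        exact v2 2 vn2 _ htA
      · have := vint 8
        push_cast at this
        exact v2 8 this _ htB
    · exact v2 _ htA.le _ htA
  have h4v : V (4 : L) = 1 := by
    have : (4 : L) = 2 * 2 := by norm_num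
    rw [this, map_mul, h2, one_mul]
  have hξ : V (X * t ^ 2) = 1 := by
    rw [map_mul, map_mul V 4, map_pow V w, hwv, h4v, one_pow, one_mul, mul_one] at hq
    exact hq
  -- the new ordinate is not zero
  have hY0 : Y ≠ 0 := by
    intro hY
    have he := (W.toAffine.equation_iff X Y).1 hn'.1
    rw [e1, e2, e3, e4, e6, hY] at he
    have e8 : (X * t ^ 2) ^ 3 + ((A * t ^ 4) * (X * t ^ 2) + B * t ^ 6) = 0 := by
      linear_combination -t ^ 6 * he
    have h9 : V ((X * t ^ 2) ^ 3 + ((A * t ^ 4) * (X * t ^ 2) + B * t ^ 6)) = V ((X * t ^ 2) ^ 3) := by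
      apply Valuation.map_add_eq_of_lt_left
      rw [map_pow, hξ, one_pow]
      refine Valuation.map_add_lt _ ?_ htB
      rw [map_mul, hξ, mul_one]
      exact htA
    rw [e8, map_zero, map_pow, hξ, one_pow] at h9
    exact zero_ne_one h9
  have hneg : W.toAffine.negY X Y = -Y := by
    rw [Affine.negY, e1, e3]; ring
  have hYn : Y ≠ W.toAffine.negY X Y := by
    rw [hneg]
    intro h5
    apply hY0
    have h6 : 2 * Y = 0 := by linear_combination h5
    exact (mul_eq_zero.1 h6).resolve_left c2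
  rw [Affine.Point.add_self_of_Y_ne hYn]
  exact Affine.Point.some_ne_zero _

end

end Pool.Agent.Q238.ESF
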