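import Pool.Agent.Q161.ESF.Stm7
import Pool.Agent.Q238.ESF.Core

/-!
Project ESF, job INF: a local point which is not of order dividing 4.
-/

set_option autoImplicit false

namespace Pool.Agent.Q238.ESF

open WeierstrassCurve WithZero NumberField IsDedekindDomain
open Pool.Agent.Q161.ESF Pool.Agent.Q161.ESG
open scoped Classical

theorem ex_t {F : Type} [Field F] [NumberField F] (v : HeightOneSpectrum (𝓞 F)) (A B : F) :
    ∃ t : F, t ≠ 0 ∧ v.valuation F (A * t ^ 4) < 1 ∧ v.valuation F (B * t ^ 6) < 1 := by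
  obtain ⟨π, hπ⟩ := v.valuation_exists_uniformizer F
  have hπ1 : v.valuation F π < 1 := by
    rw [hπ, ← WithZero.exp_zero, WithZero.exp_lt_exp]
    norm_num
  have hπ0 : π ≠ 0 := by
    intro h
    rw [h, map_zero] at hπ
    exact WithZero.exp_ne_zero hπ.symm
  set M := max 1 (max (v.valuation F A) (v.valuation F B)) with hM
  have hM1 : 1 ≤ M := le_max_left _ _
  have hM0 : M ≠ 0 := (lt_of_lt_of_le zero_lt_one hM1).ne'
  obtain ⟨n, hn⟩ := exists_pow_lt₀ hπ1 (Units.mk0 M⁻¹ (inv_ne_zero hM0))
  rw [Units.val_mk0] at hn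
  have hMx : M * v.valuation F π ^ n < 1 := by
    have h1 : M * v.valuation F π ^ n < M * M⁻¹ :=
      mul_lt_mul_of_pos_left hn (lt_of_lt_of_le zero_lt_one hM1)
    rwa [mul_inv_cancel₀ hM0] at h1
  have ht1 : v.valuation F (π ^ n) ≤ 1 := by
    rw [map_pow]
    exact pow_le_one₀ zero_le hπ1.le
  have key : ∀ (C : F) (k : ℕ), 1 ≤ k → v.valuation F C ≤ M → v.valuation F (C * (π ^ n) ^ k) < 1 := by
    intro C k hk hC
    rw [map_mul, map_pow]
    have h1 : v.valuation F (π ^ n) ^ k ≤ v.valuation F (π ^ n) :=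
      pow_le_of_le_one zero_le ht1 (by omega)
    refine lt_of_le_of_lt (mul_le_mul' hC h1) ?_
    rw [map_pow]
    exact hMx
  exact ⟨π ^ n, pow_ne_zero n hπ0,
    key A 4 (by norm_num) ((le_max_left _ _).trans (le_max_right _ _)),
    key B 6 (by norm_num) ((le_max_right _ _).trans (le_max_right _ _))⟩

theorem inf : S_INF := by
  intro F _ _ A B hd v h2
  obtain ⟨t, ht, htA, htB⟩ := ex_t v A B
  have hval : ∀ x : F, (Valued.v : Valuation (v.adicCompletion F) (WithZero (Multiplicative ℤ)))
      (algebraMap F (v.adicCompletion F) x) = v.valuation F x := by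
    intro x
    exact HeightOneSpectrum.valuedAdicCompletion_eq_valuation' v x
  have hinj : Function.Injective (algebraMap F (v.adicCompletion F)) :=
    (algebraMap F (v.adicCompletion F)).injective
  have hval2 : (Valued.v : Valuation (v.adicCompletion F) (WithZero (Multiplicative ℤ))) 2 = 1 := by
    have e : (2 : v.adicCompletion F) = algebraMap F (v.adicCompletion F) 2 := by
      rw [map_ofNat]
    have e2 : (2 : F) = algebraMap (𝓞 F) F 2 := by rw [map_ofNat]
    rw [e, hval, e2, v.valuation_of_algebraMap]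
    exact HeightOneSpectrum.intValuation_eq_one_iff.2 h2
  have hΔ : ((shF A B).baseChange (v.adicCompletion F)).Δ ≠ 0 := by
    rw [show ((shF A B).baseChange (v.adicCompletion F)).Δ = algebraMap F (v.adicCompletion F) (shF A B).Δ from
      WeierstrassCurve.map_Δ _ _]
    intro h
    have h3 : (shF A B).Δ = 0 := by
      apply hinj
      rw [h, map_zero]
    have h4 : (shF A B).Δ = -16 * (4 * A ^ 3 + 27 * B ^ 2) := by
      simp only [WeierstrassCurve.Δ, WeierstrassCurve.b₂, WeierstrassCurve.b₄,
        WeierstrassCurve.b₆, WeierstrassCurve.b₈, shF]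
      ring
    rw [h4] at h3
    rcases mul_eq_zero.1 h3 with h5 | h5
    · norm_num at h5
    · exact hd h5
  refine Pool.Agent.Q238.ESF.core hval2 ((shF A B).baseChange (v.adicCompletion F))
    (algebraMap F (v.adicCompletion F) A) (algebraMap F (v.adicCompletion F) B) ?_ ?_ ?_ ?_ ?_
    hΔ (algebraMap F (v.adicCompletion F) t) ?_ ?_ ?_
  · show algebraMap F (v.adicCompletion F) 0 = 0
    rw [map_zero]
  · show algebraMap F (v.adicCompletion F) 0 = 0
    rw [map_zero]
  · show algebraMap F (v.adicCompletion F) 0 = 0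
    rw [map_zero]
  · rfl
  · rfl
  · rw [ne_eq, map_eq_zero]; exact ht
  · rw [← map_pow, ← map_mul, hval]; exact htA
  · rw [← map_pow, ← map_mul, hval]; exact htB
end Pool.Agent.Q238.ESF
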